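import Mathlib
import Pool.Agent.R772.BridgeFD

/-!
# Families of cohomologous closed forms with nonnegative top power

`X` is a closed manifold of dimension `2 (m + 1)` oriented by a volume form (for instance the complex
projective plane). For a class `a` let `S_a` be the space of the positive symplectic forms in `a`, and
let `N_a` be the larger space of the closed two-forms `σ` in `a` such that `σ ^ (m + 1)` is nonnegative
and no closed current `η ↦ ∫ (η ∧ σ ^ m / vol) dμ`, with a nonzero measure `μ`, is carried by the set
where `σ ^ (m + 1)` vanishes (`IsClosedCurrent`; for instance, this set has two-dimensional Hausdorff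
measure zero and `σ ^ m` does not vanish on it). The theorem says that every continuous map of a
compact pair `(P, Q)` to `(N_a, S_a)` can be deformed, fixing `Q` and adding exact forms, to a map to
`S_a`: the deformation is `σ_p + t ∑ φ_i(p) dα_i`, with finitely many one-forms `α_i` and continuous
functions `φ_i` on `P` which vanish on `Q`, and all these forms with `t > 0` are symplectic. (The
classes of the `σ_p` may also vary with `p`.) In particular the inclusion of `S_a` in `N_a` is a weak
homotopy equivalence, so that the contractibility of `S_a` can be tested in `N_a`; for instance a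
family of symplectic forms `ω_p` in `a` is null-homotopic in `S_a` if the segments from the `ω_p` to a
fixed symplectic form of `S_a` lie in `N_a`.
-/

set_option autoImplicit false

open Set MeasureTheory
open scoped Manifold ContDiff

namespace Pool.Agent.Results.MP_2fc7fa_gt.CompressionOfFamilies

open Pool.Agent.Y501.SYP
open Pool.Agent.R772.SYK
open Pool.Agent.R772.SYF
open Pool.Agent.R772.SYD

theorem result (m d : ℕ) (hd : d = 2 * (m + 1)) (X : Type) [TopologicalSpace X]
    [ChartedSpace (ES d) X] [IsManifold 𝓘(ℝ, ES d) ∞ X] [CompactSpace X] [T2Space X]
    [MeasurableSpace X] [BorelSpace X] (vol : TopForm (ES d) X m) (hvol : IsVolume vol)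
    (P : Type) [TopologicalSpace P] [CompactSpace P] [T2Space P] (Q : Set P) (hQ : IsClosed Q)
    (σ : P → Form (ES d) X 2) (hσ : IsFamily vol σ)
    (hc : ∀ (p : P) (μ : Measure X), ¬ IsClosedCurrent vol (σ p) μ)
    (hQσ : ∀ q ∈ Q, IsPosSymplectic vol (σ q)) :
    ∃ (n : ℕ) (α : Fin n → Form (ES d) X 1) (ρ : Fin n → Form (ES d) X 2)
      (φ : Fin n → P → ℝ), IsCompression vol Q σ α ρ φ :=
  families_cur hd vol hvol hQ σ hσ hc hQσ

end Pool.Agent.Results.MP_2fc7fa_gt.CompressionOfFamilies
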